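import Pool.Agent.H17.BO.TargetsC
import Pool.Agent.H27.LV.Gen

/-!
# ALG: the algebraic theorem, reduction to the plane
-/

set_option autoImplicit false

namespace Pool.Agent.H11.BO

open MvPolynomial SC Pool.Agent.H27.LV Pool.Agent.H17.VG Pool.Agent.H17.BO

variable {k L : Type} [Field k] [Field L] [Algebra k L] {n : ℕ}

/-- the restriction to the plane -/
private noncomputable def phi (P : Fin (n + 1) → Fin 3 → k) (j : Fin (n + 1)) :
    MvPolynomial (Fin 3) k := ∑ t, C (P j t) * X t

private lemma phi_homog (P : Fin (n + 1) → Fin 3 → k) (j : Fin (n + 1)) :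
    (phi P j).IsHomogeneous 1 := by
  unfold phi
  refine IsHomogeneous.sum _ _ _ fun t _ => ?_
  have := (isHomogeneous_C (Fin 3) (P j t)).mul (isHomogeneous_X k t)
  simpa using this

private lemma aeval_phi_homog (P : Fin (n + 1) → Fin 3 → k) {d : ℕ}
    {G : MvPolynomial (Fin (n + 1)) k} (hG : G.IsHomogeneous d) :
    (aeval (phi P) G).IsHomogeneous d := by
  have := hG.aeval (phi P) (phi_homog P)
  simpa using this

private lemma eval_aeval_phi (P : Fin (n + 1) → Fin 3 → k) (z : Fin 3 → k)
    (G : MvPolynomial (Fin (n + 1)) k) :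
    eval z (aeval (phi P) G) = eval (fun j => ∑ t, P j t * z t) G := by
  have h : ((aeval z : MvPolynomial (Fin 3) k →ₐ[k] k).comp (aeval (phi P))) =
      aeval (fun j => ∑ t, P j t * z t) := by
    apply algHom_ext
    intro j
    rw [AlgHom.comp_apply, aeval_X, aeval_X, phi, map_sum]
    refine Finset.sum_congr rfl fun t _ => ?_
    rw [map_mul, aeval_X, aeval_C]
    rfl
  have h2 := DFunLike.congr_fun h G
  rw [AlgHom.comp_apply] at h2
  rw [← coe_aeval_eq_eval, ← coe_aeval_eq_eval]
  exact h2

/-- the restriction over `L` -/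
private lemma aeval_up (P : Fin (n + 1) → Fin 3 → k) (G : MvPolynomial (Fin (n + 1)) k) :
    aeval (fun j => ∑ t, C (algebraMap k L (P j t)) * X t : Fin (n + 1) →
      MvPolynomial (Fin 3) L) (up L G) = up L (aeval (phi P) G) := by
  unfold up
  induction G using MvPolynomial.induction_on with
  | C a => simp only [map_C, aeval_C, algebraMap_eq]
  | add p q hp hq => simp only [map_add, hp, hq]
  | mul_X p j hp =>
    rw [map_mul, map_mul, hp, map_mul, map_mul, map_X, aeval_X, aeval_X, phi, map_sum]
    congr 1
    refine Finset.sum_congr rfl fun t _ => ?_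
    rw [map_mul, map_C, map_X]

private lemma eval_up (P : Fin (n + 1) → Fin 3 → k) (x : Fin (n + 1) → L)
    (s : Fin 3 → Fin (n + 1)) (hx : ∀ j, x j = ∑ t, algebraMap k L (P j t) * x (s t))
    (G : MvPolynomial (Fin (n + 1)) k) :
    eval (x ∘ s) (up L (aeval (phi P) G)) = eval x (up L G) := by
  unfold up
  induction G using MvPolynomial.induction_on with
  | C a => simp only [map_C, aeval_C, algebraMap_eq, eval_C]
  | add p q hp hq => simp only [map_add, hp, hq]
  | mul_X p j hp =>
    rw [map_mul, map_mul, map_mul, hp, map_mul, map_mul, map_X, aeval_X, eval_X, phi, map_sum,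
      map_sum, hx j]
    congr 1
    refine Finset.sum_congr rfl fun t _ => ?_
    rw [map_mul, map_C, map_X, map_mul, eval_C, eval_X]
    rfl

private lemma up_homog {d : ℕ} {m : ℕ} {G : MvPolynomial (Fin (m + 1)) k}
    (hG : G.IsHomogeneous d) : (up L G).IsHomogeneous d := hG.map _

private lemma line_up (P : Fin (n + 1) → Fin 3 → k) (x : Fin (n + 1) → L)
    (s : Fin 3 → Fin (n + 1)) (hx : ∀ j, x j = ∑ t, algebraMap k L (P j t) * x (s t))
    (h : OnLine k (x ∘ s)) : OnLine k x := by
  obtain ⟨u, v, a, b, h⟩ := h
  refine ⟨fun j => ∑ t, P j t * u t, fun j => ∑ t, P j t * v t, a, b, fun j => ?_⟩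
  rw [hx j, map_sum, map_sum, Finset.mul_sum, Finset.mul_sum, ← Finset.sum_add_distrib]
  refine Finset.sum_congr rfl fun t _ => ?_
  have := h t
  rw [Function.comp_apply] at this
  rw [this, map_mul, map_mul]
  ring

private lemma conic_up (P : Fin (n + 1) → Fin 3 → k) (x : Fin (n + 1) → L)
    (s : Fin 3 → Fin (n + 1)) (hx : ∀ j, x j = ∑ t, algebraMap k L (P j t) * x (s t))
    (hP : ∀ t u, P (s t) u = if t = u then 1 else 0)
    (h : OnConic k (x ∘ s)) : OnConic k x := by
  obtain ⟨a, b, c, hli, l, p, q, h⟩ := h
  let T : (Fin 3 → k) →ₗ[k] (Fin (n + 1) → k) :=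
    LinearMap.pi fun j => ∑ t, P j t • LinearMap.proj t
  have hT : ∀ z j, T z j = ∑ t, P j t * z t := by
    intro z j
    simp only [T, LinearMap.pi_apply, LinearMap.sum_apply, LinearMap.smul_apply,
      LinearMap.proj_apply, smul_eq_mul]
  have hker : LinearMap.ker T = ⊥ := by
    rw [LinearMap.ker_eq_bot']
    intro z hz
    funext t
    have h1 := congrFun hz (s t)
    rw [hT] at h1
    simp only [hP, ite_mul, one_mul, zero_mul, Finset.sum_ite_eq, Finset.mem_univ, if_true] at h1
    exact h1
  refine ⟨T a, T b, T c, ?_, l, p, q, fun j => ?_⟩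
  · have h2 := hli.map' T hker
    have h3 : T ∘ ![a, b, c] = ![T a, T b, T c] := by
      funext i
      fin_cases i <;> rfl
    rw [h3] at h2
    exact h2
  · rw [hT, hT, hT, hx j, map_sum, map_sum, map_sum, Finset.mul_sum, Finset.mul_sum,
      Finset.mul_sum, ← Finset.sum_add_distrib, ← Finset.sum_add_distrib, Finset.mul_sum]
    refine Finset.sum_congr rfl fun t _ => ?_
    have := h t
    rw [Function.comp_apply] at this
    rw [this, map_mul, map_mul, map_mul]
    ring

/-- ALG -/
theorem pf_ALG (hPLN : T_PLN) (hRES : T_RES) (hTER : T_TER) : T_ALG := by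
  intro k L _ _ _ _ _ n e he F hF hsm x y ν hF2 hν hx κ hκ hne
  have : Infinite k := IsAlgClosed.instInfinite
  have : CharZero L := charZero_of_injective_algebraMap (algebraMap k L).injective
  rcases hPLN k L n (e + 1) x y κ hκ hne with h | ⟨s, P, hinj, hP, ⟨Q0, hQ0⟩, hxP, hfn⟩
  · exact Or.inl h
  obtain ⟨y', hy'⟩ := hRES k L n (e + 1) y s P hinj hP hfn
  -- the value of the functionals on multiples of forms over `k`
  have hphi : ∀ t, phi P (s t) = X t := by
    intro t
    simp only [phi, hP]
    rw [Finset.sum_eq_single t (by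
      intro u _ hu
      rw [if_neg (Ne.symm hu), map_zero, zero_mul]) (by simp)]
    rw [if_pos rfl, map_one, one_mul]
  have hval : ∀ (b : Fin 2) (t : Fin 3) (G : MvPolynomial (Fin (n + 1)) k),
      G.IsHomogeneous (e + 1) →
      fnl (y' b) (X t * up L (aeval (phi P) G)) = fnl (y b) (X (s t) * up L G) := by
    intro b t G hG
    have h1 : (X (s t) * G : MvPolynomial (Fin (n + 1)) k).IsHomogeneous (e + 1 + 1) := by
      have := (isHomogeneous_X k (s t)).mul hG
      rwa [add_comm 1 (e + 1)] at this
    have h2 := hy' b (up L (X (s t) * G)) (up_homog h1)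
    rw [aeval_up, map_mul, aeval_X, hphi t] at h2
    have h3 : ∀ {m : ℕ} (i : Fin (m + 1)) (G' : MvPolynomial (Fin (m + 1)) k),
        up L (X i * G') = X i * up L G' := by
      intro m i G'
      unfold up
      rw [map_mul, map_X]
    rw [h3, h3] at h2
    exact h2.symm
  have hpd : ∀ a, pderiv a (up L F) = up L (pderiv a F) := by
    intro a
    exact pderiv_map
  have hFd : ∀ a, (pderiv a F).IsHomogeneous (e + 1) := fun a => by
    simpa using hF.pderiv (i := a)
  have key := hTER k L e (n + 1) he (fun a => aeval (phi P) (pderiv a F))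
    (fun a => aeval_phi_homog P (hFd a)) (by
      intro z hz
      obtain ⟨j, hj⟩ := hsm (fun j => ∑ t, P j t * z t) (by
        intro h0
        apply hz
        funext t
        have h1 := congrFun h0 (s t)
        simp only [hP, ite_mul, one_mul, zero_mul, Finset.sum_ite_eq, Finset.mem_univ,
          if_true] at h1
        exact h1)
      refine ⟨j, ?_⟩
      rw [eval_aeval_phi]
      exact hj) (x ∘ s) y' ν ⟨hF2.ind, by
      intro b j a
      rw [hval b j _ (hFd a)]
      have := hF2.grad b (s j) a
      rw [hpd] at this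
      exact this⟩ x (by
      intro b
      exact hν b) (by
      have h1 : ∀ a, eval (x ∘ s) (up L (aeval (phi P) (pderiv a F))) =
          eval x (pderiv a (up L F)) := by
        intro a
        rw [eval_up P x s hxP, hpd]
      simp only [h1]
      have h2 := congrArg (eval x) (up_homog (L := L) hF).sum_X_mul_pderiv
      rw [map_sum] at h2
      simp only [map_mul, eval_X] at h2
      rw [h2, map_nsmul, nsmul_eq_mul]
      refine mul_ne_zero ?_ hx
      exact_mod_cast Nat.succ_ne_zero (e + 1)) κ (by
      intro Q'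
      obtain ⟨r, hr⟩ := hκ (fun M => coeff (fs M.1) (rename s (frm Q'))) s
      refine ⟨r, ?_⟩
      rw [← hr, frm_coeff ((frm_homog Q').rename_isHomogeneous)]
      have h1 : aeval (phi P) (rename s (frm Q')) = frm Q' := by
        rw [aeval_rename]
        have : (phi P ∘ s) = X := by
          funext t
          exact hphi t
        rw [this, aeval_X_left_apply]
      have h2 : ∀ b t, fnl (y' b) (X t * up L (frm Q')) =
          fnl (y b) (X (s t) * up L (rename s (frm Q'))) := by
        intro b t
        rw [← hval b t _ ((frm_homog Q').rename_isHomogeneous), h1]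
      unfold det3
      simp only [id, h2, Function.comp_apply]) (by
      have hh := aeval_phi_homog P (frm_homog Q0)
      refine ⟨fun M => coeff (fs M.1) (aeval (phi P) (frm Q0)), ?_⟩
      rw [frm_coeff hh]
      have h2 : ∀ b t, fnl (y' b) (X t * up L (aeval (phi P) (frm Q0))) =
          fnl (y b) (X (s t) * up L (frm Q0)) := fun b t => hval b t _ (frm_homog Q0)
      have h3 : det3 (x ∘ s) y' (up L (aeval (phi P) (frm Q0))) id =
          det3 x y (up L (frm Q0)) s := by
        unfold det3
        simp only [id, h2, Function.comp_apply]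
      rw [h3]
      exact hQ0)
  rcases key with h | h
  · exact Or.inl (line_up P x s hxP h)
  · exact Or.inr (conic_up P x s hxP hP h)

end Pool.Agent.H11.BO
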