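import Pool.Agent.H17.BO.TargetsD

/-!
# KLL: descent of lines
-/

set_option autoImplicit false

namespace Pool.Agent.H11.BO

open MvPolynomial SC Pool.Agent.H27.LV Pool.Agent.H17.VG Pool.Agent.H17.BO

private lemma exists_rel {F ι : Type} [Field F] [Fintype ι] (u v : ι → F)
    (h : 2 < Fintype.card ι) : ∃ a : ι → F, a ≠ 0 ∧ ∑ i, a i * u i = 0 ∧ ∑ i, a i * v i = 0 := by
  let T : (ι → F) →ₗ[F] (Fin 2 → F) :=
    LinearMap.pi fun b => ∑ i, (![u, v] b i) • LinearMap.proj i
  have hT : ∀ a b, T a b = ∑ i, ![u, v] b i * a i := by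
    intro a b
    simp only [T, LinearMap.pi_apply, LinearMap.sum_apply, LinearMap.smul_apply,
      LinearMap.proj_apply, smul_eq_mul]
  have hker : LinearMap.ker T ≠ ⊥ := by
    apply LinearMap.ker_ne_bot_of_finrank_lt
    rw [Module.finrank_fin_fun, Module.finrank_fintype_fun_eq_card]
    exact h
  obtain ⟨a, ha, ha0⟩ := (Submodule.ne_bot_iff _).1 hker
  rw [LinearMap.mem_ker] at ha
  refine ⟨a, ha0, ?_, ?_⟩
  · have := congrFun ha 0
    rw [hT] at this
    simp only [Matrix.cons_val_zero, Pi.zero_apply] at this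
    rw [← this]
    exact Finset.sum_congr rfl fun i _ => mul_comm _ _
  · have := congrFun ha 1
    rw [hT] at this
    simp only [Matrix.cons_val_one, Pi.zero_apply] at this
    rw [← this]
    exact Finset.sum_congr rfl fun i _ => mul_comm _ _

private lemma sub_pair {L : Type} [Zero L] (B : Finset L) (h : B.card ≤ 2) :
    ∃ p q : L, ∀ z ∈ B, z = p ∨ z = q := by
  classical
  have h3 : B.card = 0 ∨ B.card = 1 ∨ B.card = 2 := by omega
  rcases h3 with h0 | h1 | h2
  · rw [Finset.card_eq_zero] at h0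
    exact ⟨0, 0, by simp [h0]⟩
  · obtain ⟨p, rfl⟩ := Finset.card_eq_one.1 h1
    exact ⟨p, p, by simp⟩
  · obtain ⟨p, q, -, rfl⟩ := Finset.card_eq_two.1 h2
    exact ⟨p, q, by simp⟩

/-- KLL -/
theorem pf_KLL (hLDJ : T_LDJ) : T_KLL := by
  intro k L k' Ω _ _ _ _ _ _ _ _ _ _ _ _ hL hk' m x hx
  obtain ⟨u, v, s, t, h'⟩ := hx
  have h : ∀ i, algebraMap L Ω (x i) = s * algebraMap k' Ω (u i) + t * algebraMap k' Ω (v i) :=
    h'
  obtain ⟨b, hb, hspan, hli⟩ := exists_linearIndependent k (Set.range x)
  have hfin : b.Finite := (Set.finite_range x).subset hb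
  have : Fintype b := hfin.fintype
  have hch : ∀ z : b, ∃ i, x i = z.1 := fun z => hb z.2
  choose idx hidx using hch
  have hcard : Fintype.card b ≤ 2 := by
    by_contra hc
    obtain ⟨a, ha0, h1, h2⟩ := exists_rel (fun z : b => u (idx z)) (fun z => v (idx z))
      (not_le.1 hc)
    apply ha0
    funext z
    have h3 := hLDJ k L Ω hL b (fun z => z.1) (fun z => algebraMap k' Ω (a z))
      (fun z => (hk' (a z)).algebraMap) (by
        have h4 : ∀ z : b, algebraMap L Ω z.1 * algebraMap k' Ω (a z) =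
            s * algebraMap k' Ω (a z * u (idx z)) + t * algebraMap k' Ω (a z * v (idx z)) := by
          intro z
          rw [← hidx z, h, map_mul, map_mul]
          ring
        rw [Finset.sum_congr rfl fun z _ => h4 z, Finset.sum_add_distrib, ← Finset.mul_sum,
          ← Finset.mul_sum, ← map_sum, ← map_sum, h1, h2, map_zero, mul_zero, mul_zero,
          add_zero]) hli z
    exact (map_eq_zero _).1 h3
  obtain ⟨p, q, hpq⟩ := sub_pair hfin.toFinset (by
    rw [← Set.toFinset_card] at hcard
    convert hcard using 2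
    ext z
    simp)
  have hmem : ∀ i, x i ∈ Submodule.span k ({p, q} : Set L) := by
    intro i
    have h5 : x i ∈ Submodule.span k (Set.range x) := Submodule.subset_span ⟨i, rfl⟩
    rw [← hspan] at h5
    refine Submodule.span_mono ?_ h5
    intro z hz
    have := hpq z (hfin.mem_toFinset.2 hz)
    simpa using this
  have hex : ∀ i, ∃ c d : k, c • p + d • q = x i := fun i => Submodule.mem_span_pair.1 (hmem i)
  choose c d hcd using hex
  refine ⟨c, d, p, q, fun i => ?_⟩
  rw [← hcd i, Algebra.smul_def, Algebra.smul_def]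
  ring

end Pool.Agent.H11.BO
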