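import Pool.Agent.H17.BO.TargetsC
import Pool.Agent.H17.BO.TargetsD
import Pool.Agent.H17.VG.TargetsG
import Pool.Agent.H27.LV.Gen

/-!
# KLV: the algebraic theorem relative to a field `k` which is algebraically closed in `L`
-/

set_option autoImplicit false

namespace Pool.Agent.H11.BO

open MvPolynomial SC Pool.Agent.H27.LV Pool.Agent.H17.VG Pool.Agent.H17.BO

section Up

variable {k L : Type} [Field k] [Field L] [Algebra k L] {n : ℕ}

private lemma up_frm' {e : ℕ} (c : Mon (n + 1) e → k) :
    up L (frm c) = frm (fun M => algebraMap k L (c M)) := by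
  unfold up frm
  rw [map_sum]
  refine Finset.sum_congr rfl fun M _ => ?_
  rw [map_mul, map_C]
  unfold mono
  rw [map_monomial, map_one]

private lemma up_tower {Ω : Type} [Field Ω] [Algebra L Ω] [Algebra k Ω] [IsScalarTower k L Ω]
    (G : MvPolynomial (Fin (n + 1)) k) : up Ω (up L G) = up Ω G := by
  unfold up
  rw [map_map, ← IsScalarTower.algebraMap_eq]

private lemma up_homog' {d : ℕ} {G : MvPolynomial (Fin (n + 1)) k}
    (hG : G.IsHomogeneous d) : (up L G).IsHomogeneous d := hG.map _

private lemma fnl_up {d : ℕ} (y : Mon (n + 1) d → k) (G : MvPolynomial (Fin (n + 1)) k) :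
    fnl (fun M => algebraMap k L (y M)) (up L G) = algebraMap k L (fnl y G) := by
  unfold fnl up
  rw [map_sum]
  refine Finset.sum_congr rfl fun M _ => ?_
  rw [coeff_map, map_mul]

private lemma up_X_mul (j : Fin (n + 1)) (G : MvPolynomial (Fin (n + 1)) k) :
    up L (X j * G) = X j * up L G := by
  unfold up
  rw [map_mul, map_X]

private lemma det3_up {d : ℕ} (x : Fin (n + 1) → k) (y : Fin 2 → Mon (n + 1) d → k)
    (Q : MvPolynomial (Fin (n + 1)) k) (a : Fin 3 → Fin (n + 1)) :
    det3 (fun i => algebraMap k L (x i)) (fun b M => algebraMap k L (y b M)) (up L Q) a =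
      algebraMap k L (det3 x y Q a) := by
  unfold det3
  rw [RingHom.map_det]
  congr 1
  funext t r
  rw [RingHom.mapMatrix_apply, Matrix.map_apply, Matrix.of_apply, Matrix.of_apply,
    ← up_X_mul, fnl_up, fnl_up]
  fin_cases r <;> rfl

private lemma eval_up_map (x : Fin (n + 1) → k) (G : MvPolynomial (Fin (n + 1)) k) :
    eval (fun i => algebraMap k L (x i)) (up L G) = algebraMap k L (eval x G) := by
  unfold up
  have := eval₂_comp_left (algebraMap k L) (RingHom.id k) x G
  rw [eval_map]
  rw [show eval x G = eval₂ (RingHom.id k) x G from rfl, this]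
  rfl

private lemma pd_up (a : Fin (n + 1)) (G : MvPolynomial (Fin (n + 1)) k) :
    pderiv a (up L G) = up L (pderiv a G) := pderiv_map

private lemma fun2_up {m d : ℕ} (G : Fin m → MvPolynomial (Fin (n + 1)) k)
    (x : Fin (n + 1) → k) (y : Fin 2 → Mon (n + 1) d → k) (ν : Fin 2 → Fin m → k)
    (h : Fun2 G x y ν) : Fun2 (fun a => up L (G a)) (fun i => algebraMap k L (x i))
      (fun b M => algebraMap k L (y b M)) (fun b i => algebraMap k L (ν b i)) where
  ind := (linearIndependent_algebraMap_comp_iff (S := L)).2 h.ind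
  grad b j a := by
    rw [← up_X_mul, fnl_up, h.grad b j a, map_neg, map_mul]

/-- linear independence and determinants -/
private lemma li3 {K : Type} [Field K] (A B C : Fin 3 → K) :
    LinearIndependent K ![A, B, C] ↔ (Matrix.of ![A, B, C]).det ≠ 0 := by
  have h := Matrix.linearIndependent_rows_iff_isUnit (A := Matrix.of ![A, B, C])
  rw [Matrix.isUnit_iff_isUnit_det, isUnit_iff_ne_zero] at h
  exact h

private lemma bil_map (q : Matrix (Fin 3) (Fin 3) k) (u v : Fin 3 → k) :
    bil (q.map (algebraMap k L)) (fun i => algebraMap k L (u i)) (fun i => algebraMap k L (v i)) =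
      algebraMap k L (bil q u v) := by
  unfold bil
  simp only [map_sum, map_mul, Matrix.map_apply]

private lemma onC_map (q : Matrix (Fin 3) (Fin 3) k) (A B C : Fin 3 → k) (h : OnC q A B C) :
    OnC (q.map (algebraMap k L)) (fun i => algebraMap k L (A i)) (fun i => algebraMap k L (B i))
      (fun i => algebraMap k L (C i)) where
  ind := by
    have h1 := (linearIndependent_algebraMap_comp_iff (S := L)).2 h.ind
    have h2 : (fun i => algebraMap k L ∘ ![A, B, C] i) = ![(fun i => algebraMap k L (A i)),
        (fun i => algebraMap k L (B i)), (fun i => algebraMap k L (C i))] := by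
      funext i
      fin_cases i <;> rfl
    rw [h2] at h1
    exact h1
  aa := by rw [bil_map, h.aa, map_zero]
  ab := by rw [bil_map, h.ab, map_zero]
  bb := by
    have := congrArg (algebraMap k L) h.bb
    rw [map_add, map_mul, map_zero, map_ofNat] at this
    rw [bil_map, bil_map]
    exact this
  bc := by rw [bil_map, h.bc, map_zero]
  cc := by rw [bil_map, h.cc, map_zero]

private lemma onC_on (q : Matrix (Fin 3) (Fin 3) k) (hq : q.IsSymm) (A B C : Fin 3 → k)
    (h : OnC q A B C) (u v : k) :
    bil q (fun i => u ^ 2 * A i + u * v * B i + v ^ 2 * C i)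
      (fun i => u ^ 2 * A i + u * v * B i + v ^ 2 * C i) = 0 := by
  have h1 := h.aa
  have h2 := h.ab
  have h3 := h.bb
  have h4 := h.bc
  have h5 := h.cc
  have s1 := hq.apply 0 1
  have s2 := hq.apply 0 2
  have s3 := hq.apply 1 2
  unfold bil at *
  simp only [Fin.sum_univ_three] at *
  rw [s1, s2, s3] at *
  linear_combination u ^ 4 * h1 + 2 * u ^ 3 * v * h2 + u ^ 2 * v ^ 2 * h3 + 2 * u * v ^ 3 * h4 +
    v ^ 4 * h5

end Up

/-- the top coefficient of a form in polynomials of degree `≤ m` -/
private lemma top_prod {K σ : Type} [Field K] (p : σ → Polynomial K) (m : ℕ)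
    (hp : ∀ i, (p i).natDegree ≤ m) (e : σ →₀ ℕ) (S : Finset σ) :
    (∏ i ∈ S, p i ^ e i).natDegree ≤ (∑ i ∈ S, e i) * m ∧
    (∏ i ∈ S, p i ^ e i).coeff ((∑ i ∈ S, e i) * m) = ∏ i ∈ S, (p i).coeff m ^ e i := by
  classical
  induction S using Finset.induction_on with
  | empty => simp
  | insert a S ha ih =>
    rw [Finset.prod_insert ha, Finset.prod_insert ha, Finset.sum_insert ha, add_mul]
    have h1 : (p a ^ e a).natDegree ≤ e a * m :=
      Polynomial.natDegree_pow_le.trans (Nat.mul_le_mul_left _ (hp a))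
    refine ⟨Polynomial.natDegree_mul_le.trans (Nat.add_le_add h1 ih.1), ?_⟩
    rw [Polynomial.coeff_mul_add_eq_of_natDegree_le h1 ih.1, ih.2,
      Polynomial.coeff_pow_of_natDegree_le (hp a)]

private lemma top_coeff {K σ : Type} [Field K] (F : MvPolynomial σ K) (d : ℕ)
    (hF : F.IsHomogeneous d) (p : σ → Polynomial K) (m : ℕ) (hp : ∀ i, (p i).natDegree ≤ m) :
    (aeval p F).coeff (d * m) = eval (fun i => (p i).coeff m) F := by
  rw [aeval_def, eval₂_eq, eval_eq, Polynomial.finsetSum_coeff]
  refine Finset.sum_congr rfl fun s hs => ?_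
  rw [← Polynomial.C_eq_algebraMap, Polynomial.coeff_C_mul]
  congr 1
  have h1 : ∑ i ∈ s.support, s i = d := by
    have := hF (mem_support_iff.1 hs)
    rw [← this, Finsupp.weight_apply, Finsupp.sum]
    simp
  rw [← h1]
  exact (top_prod p m hp s s.support).2

private lemma eval_scale' {K σ : Type} [Field K] {F : MvPolynomial σ K} {d : ℕ}
    (hF : F.IsHomogeneous d) (c : K) (z : σ → K) :
    eval (fun i => c * z i) F = c ^ d * eval z F := by
  rw [eval_eq, eval_eq, Finset.mul_sum]
  refine Finset.sum_congr rfl fun s hs => ?_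
  have h1 : ∑ i ∈ s.support, s i = d := by
    have := hF (mem_support_iff.1 hs)
    rw [← this, Finsupp.weight_apply, Finsupp.sum]
    simp
  simp only [mul_pow]
  rw [Finset.prod_mul_distrib, Finset.prod_pow_eq_pow_sum, h1]
  ring

/-- three different points of a conic -/
private lemma det_three {K : Type} [Field K] (A B C : Fin 3 → K)
    (hli : LinearIndependent K ![A, B, C]) (s t : Fin 3 → K)
    (hst : ∀ i j, i ≠ j → s i * t j ≠ s j * t i) :
    (Matrix.of fun j a => s j ^ 2 * A a + s j * t j * B a + t j ^ 2 * C a :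
      Matrix (Fin 3) (Fin 3) K).det ≠ 0 := by
  have h1 : (Matrix.of fun j a => s j ^ 2 * A a + s j * t j * B a + t j ^ 2 * C a :
      Matrix (Fin 3) (Fin 3) K) =
      (Matrix.of fun j : Fin 3 => ![s j ^ 2, s j * t j, t j ^ 2]) * Matrix.of ![A, B, C] := by
    ext j a
    rw [Matrix.mul_apply, Fin.sum_univ_three]
    rfl
  rw [h1, Matrix.det_mul]
  refine mul_ne_zero ?_ ((li3 A B C).1 hli)
  have h2 : (Matrix.of fun j : Fin 3 => ![s j ^ 2, s j * t j, t j ^ 2]).det =
      (s 0 * t 1 - s 1 * t 0) * (s 0 * t 2 - s 2 * t 0) * (s 1 * t 2 - s 2 * t 1) := by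
    rw [Matrix.det_fin_three]
    simp
    ring
  rw [h2]
  exact mul_ne_zero (mul_ne_zero (sub_ne_zero.2 (hst 0 1 (by decide)))
    (sub_ne_zero.2 (hst 0 2 (by decide)))) (sub_ne_zero.2 (hst 1 2 (by decide)))

/-- a form which vanishes on a conic -/
private lemma whole {K Ω : Type} [Field K] [Infinite K] [Field Ω] [Algebra K Ω] {n : ℕ}
    (F : MvPolynomial (Fin (n + 1)) K) (a b c : Fin (n + 1) → K)
    (h : ∀ s t : K, eval (fun l => s ^ 2 * a l + s * t * b l + t ^ 2 * c l) F = 0) (s t : Ω) :
    eval (fun l => s ^ 2 * algebraMap K Ω (a l) + s * t * algebraMap K Ω (b l) +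
      t ^ 2 * algebraMap K Ω (c l)) (up Ω F) = 0 := by
  have h1 : aeval (fun l => (X 0 ^ 2 * C (a l) + X 0 * X 1 * C (b l) + X 1 ^ 2 * C (c l) :
      MvPolynomial (Fin 2) K)) F = 0 := by
    apply MvPolynomial.funext
    intro g
    rw [map_zero, ← coe_aeval_eq_eval, RingHom.coe_coe, comp_aeval_apply]
    have := h (g 0) (g 1)
    rw [← coe_aeval_eq_eval, RingHom.coe_coe] at this
    rw [← this]
    congr 2
    funext l
    simp
  have h2 := congrArg (aeval ![s, t]) h1
  rw [comp_aeval_apply, map_zero] at h2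
  rw [up, eval_map, ← aeval_def, ← h2]
  congr 2
  funext l
  simp

private lemma li_coef {K : Type} [Field K] {A B C : Fin 3 → K}
    (hli : LinearIndependent K ![A, B, C]) (a b c : K)
    (h : ∀ i, a * A i + b * B i + c * C i = 0) : a = 0 ∧ b = 0 ∧ c = 0 := by
  rw [Fintype.linearIndependent_iff] at hli
  have := hli ![a, b, c] (by
    rw [Fin.sum_univ_three]
    funext i
    exact h i)
  exact ⟨this 0, this 1, this 2⟩

/-- two points of the conic which are the same point -/
private lemma par_ne {K : Type} [Field K] {A B C : Fin 3 → K}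
    (hli : LinearIndependent K ![A, B, C]) (α β μ : K)
    (h : ∀ i, A i + α * B i + α ^ 2 * C i = μ * (A i + β * B i + β ^ 2 * C i)) : α = β := by
  obtain ⟨h1, h2, -⟩ := li_coef hli (1 - μ) (α - μ * β) (α ^ 2 - μ * β ^ 2) (fun i => by
    linear_combination h i)
  linear_combination h2 - β * h1

private lemma inf_ne {K : Type} [Field K] {A B C : Fin 3 → K}
    (hli : LinearIndependent K ![A, B, C]) (β μ : K)
    (h : ∀ i, C i = μ * (A i + β * B i + β ^ 2 * C i)) : False := by
  obtain ⟨h1, h2, h3⟩ := li_coef hli (-μ) (- μ * β) (1 - μ * β ^ 2) (fun i => by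
    linear_combination h i)
  have : μ = 0 := by linear_combination - h1
  rw [this] at h3
  simp at h3

/-- the zeros of `F` on the conic are multiples of two vectors -/
private lemma zeros {Ω : Type} [Field Ω] [CharZero Ω] {n d : ℕ} (hCSU : T_CSU)
    (F : MvPolynomial (Fin (n + 1)) Ω) (hF : F.IsHomogeneous d)
    (P : Fin (n + 1) → Fin 3 → Ω) (q : Matrix (Fin 3) (Fin 3) Ω) (hq : q.IsSymm)
    (hd : q.det ≠ 0) (A B C : Fin 3 → Ω) (hC : OnC q A B C) (s t : Fin 2 → Ω)
    (hst : ∀ i, s i ≠ 0 ∨ t i ≠ 0)
    (hz : ∀ u v : Ω, eval (fun l => u ^ 2 * (∑ a, P l a * A a) + u * v * (∑ a, P l a * B a) +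
      v ^ 2 * (∑ a, P l a * C a)) F = 0 → ∃ i, u * t i = v * s i)
    (y : Fin 3 → Ω) (hy : y ≠ 0) (hyq : bil q y y = 0)
    (hyF : eval (fun l => ∑ a, P l a * y a) F = 0) :
    ∃ i μ, ∀ j, y j = μ * (s i ^ 2 * A j + s i * t i * B j + t i ^ 2 * C j) := by
  obtain ⟨l, u, v, hl, huv, hyy⟩ := hCSU Ω q hq hd A B C hC y hy hyq
  have h1 : (fun j => ∑ a, P j a * y a) = (fun j => l * (u ^ 2 * (∑ a, P j a * A a) +
      u * v * (∑ a, P j a * B a) + v ^ 2 * (∑ a, P j a * C a))) := by
    funext j
    rw [Finset.mul_sum, Finset.mul_sum, Finset.mul_sum, ← Finset.sum_add_distrib,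
      ← Finset.sum_add_distrib, Finset.mul_sum]
    refine Finset.sum_congr rfl fun a _ => ?_
    rw [hyy a]
    ring
  rw [h1, eval_scale' hF] at hyF
  obtain ⟨i, hi⟩ := hz u v ((mul_eq_zero.1 hyF).resolve_left (pow_ne_zero _ hl))
  have h2 : ∃ ρ, u = ρ * s i ∧ v = ρ * t i := by
    rcases hst i with h | h
    · exact ⟨u / s i, by field_simp, by field_simp; linear_combination - hi⟩
    · exact ⟨v / t i, by field_simp; linear_combination hi, by field_simp⟩
  obtain ⟨ρ, hu, hv⟩ := h2
  refine ⟨i, l * ρ ^ 2, fun j => ?_⟩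
  rw [hyy j, hu, hv]
  ring

private lemma res2_eval {L Ω : Type} [Field L] [Field Ω] [Algebra L Ω] {n : ℕ}
    (F : MvPolynomial (Fin (n + 1)) L) (x b c : Fin (n + 1) → L) (α : Ω) :
    ((res2 x b c F).map (algebraMap L Ω)).eval α =
      eval (fun i => algebraMap L Ω (x i) + α * algebraMap L Ω (b i) +
        α ^ 2 * algebraMap L Ω (c i)) (up Ω F) := by
  rw [Polynomial.eval_map, ← Polynomial.aeval_def, res2, comp_aeval_apply, up, eval_map,
    ← aeval_def]
  congr 2
  funext i
  rw [map_add, map_add, map_mul, map_mul, map_pow, Polynomial.aeval_C, Polynomial.aeval_C,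
    Polynomial.aeval_C, Polynomial.aeval_X]
  ring

private lemma res2_coeff_zero {L : Type} [Field L] {n : ℕ}
    (F : MvPolynomial (Fin (n + 1)) L) (x b c : Fin (n + 1) → L) :
    (res2 x b c F).coeff 0 = eval x F := by
  have h := res2_eval (Ω := L) F x b c 0
  rw [Algebra.algebraMap_self, Polynomial.map_id] at h
  rw [Polynomial.coeff_zero_eq_eval_zero, h]
  have h2 : up L F = F := by
    unfold up
    rw [Algebra.algebraMap_self, map_id]
  rw [h2]
  congr 2
  funext i
  simp

private lemma res2_deg {L : Type} [Field L] {n d : ℕ}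
    (F : MvPolynomial (Fin (n + 1)) L) (hF : F.IsHomogeneous d) (x b c : Fin (n + 1) → L) :
    (res2 x b c F).natDegree ≤ d * 2 ∧ (res2 x b c F).coeff (d * 2) = eval c F := by
  have hp : ∀ i, (Polynomial.C (x i) + Polynomial.C (b i) * Polynomial.X +
      Polynomial.C (c i) * Polynomial.X ^ 2 : Polynomial L).natDegree ≤ 2 := by
    intro i
    compute_degree
  refine ⟨aeval_natDegree_le F hF.totalDegree_le _ hp, ?_⟩
  rw [res2, top_coeff F d hF _ 2 hp]
  congr 2
  funext i
  simp

/-- at most two zeros -/
private lemma two_roots {L : Type} [Field L] [CharZero L] {n d : ℕ} (hTW2 : T_TW2)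
    (F : MvPolynomial (Fin (n + 1)) L) (hF : F.IsHomogeneous d)
    (P : Fin (n + 1) → Fin 3 → L) (q : Matrix (Fin 3) (Fin 3) L) (hq : q.IsSymm)
    (A B C : Fin 3 → L) (hC : OnC q A B C) (hx : eval (fun j => ∑ a, P j a * A a) F ≠ 0)
    (z : Fin 2 → Fin 3 → AlgebraicClosure L)
    (hz : ∀ y : Fin 3 → AlgebraicClosure L, y ≠ 0 →
      bil (q.map (algebraMap L (AlgebraicClosure L))) y y = 0 →
      eval (fun l => ∑ a, algebraMap L (AlgebraicClosure L) (P l a) * y a)
        (up (AlgebraicClosure L) F) = 0 → ∃ i μ, ∀ j, y j = μ * z i j) :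
    TwoRoots2 d F (fun j => ∑ a, P j a * A a) (fun j => ∑ a, P j a * B a)
      (fun j => ∑ a, P j a * C a) := by
  have hC' := onC_map (L := AlgebraicClosure L) q A B C hC
  have hq' : (q.map (algebraMap L (AlgebraicClosure L))).IsSymm := hq.map _
  have hli := hC'.ind
  -- zeros
  have key : ∀ α : AlgebraicClosure L, ((res2 (fun j => ∑ a, P j a * A a) (fun j => ∑ a, P j a * B a)
      (fun j => ∑ a, P j a * C a) F).map (algebraMap L (AlgebraicClosure L))).eval α = 0 →
      ∃ i μ, μ ≠ 0 ∧ ∀ j, algebraMap L (AlgebraicClosure L) (A j) + α * algebraMap L (AlgebraicClosure L) (B j) +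
        α ^ 2 * algebraMap L (AlgebraicClosure L) (C j) = μ * z i j := by
    intro α hα
    obtain ⟨i, μ, h⟩ := hz (fun j => algebraMap L (AlgebraicClosure L) (A j) + α * algebraMap L (AlgebraicClosure L) (B j) +
        α ^ 2 * algebraMap L (AlgebraicClosure L) (C j)) (by
      intro h0
      obtain ⟨h1, -, -⟩ := li_coef hli 1 α (α ^ 2) (fun i => by
        rw [one_mul]
        exact congrFun h0 i)
      exact one_ne_zero h1) (by
      have := onC_on _ hq' _ _ _ hC' 1 α
      simpa using this) (by
      rw [res2_eval] at hα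
      rw [← hα]
      congr 2
      funext l
      rw [map_sum, map_sum, map_sum, Finset.mul_sum, Finset.mul_sum, ← Finset.sum_add_distrib,
        ← Finset.sum_add_distrib]
      refine Finset.sum_congr rfl fun a _ => ?_
      rw [map_mul, map_mul, map_mul]
      ring)
    refine ⟨i, μ, ?_, h⟩
    rintro rfl
    obtain ⟨h1, -, -⟩ := li_coef hli 1 α (α ^ 2) (fun i => by
      rw [one_mul]
      have := h i
      rwa [zero_mul] at this)
    exact one_ne_zero h1
  have same : ∀ (α β : AlgebraicClosure L) (i : Fin 2) (μ μ' : AlgebraicClosure L), μ' ≠ 0 →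
      (∀ j, algebraMap L (AlgebraicClosure L) (A j) + α * algebraMap L (AlgebraicClosure L) (B j) +
        α ^ 2 * algebraMap L (AlgebraicClosure L) (C j) = μ * z i j) →
      (∀ j, algebraMap L (AlgebraicClosure L) (A j) + β * algebraMap L (AlgebraicClosure L) (B j) +
        β ^ 2 * algebraMap L (AlgebraicClosure L) (C j) = μ' * z i j) → α = β := by
    intro α β i μ μ' hμ' h1 h2
    refine par_ne hli α β (μ / μ') fun j => ?_
    rw [h1 j, h2 j]
    field_simp
  have hfin : ∀ i j l : Fin 2, i = j ∨ j = l ∨ i = l := by decide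
  obtain ⟨hdeg, htop⟩ := res2_deg F hF (fun j => ∑ a, P j a * A a) (fun j => ∑ a, P j a * B a)
      (fun j => ∑ a, P j a * C a)
  have h0 := res2_coeff_zero F (fun j => ∑ a, P j a * A a) (fun j => ∑ a, P j a * B a)
      (fun j => ∑ a, P j a * C a)
  obtain ⟨α, β, i, j, hij, hW⟩ := hTW2 L (2 * d) _ (by rw [mul_comm]; exact hdeg) (by
      rw [h0]
      exact hx) (by
    intro α β γ hα hβ hγ
    obtain ⟨i, μ, hμ, h1⟩ := key α hα
    obtain ⟨j, μ', hμ', h2⟩ := key β hβ
    obtain ⟨l, μ'', hμ'', h3⟩ := key γ hγ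
    rcases hfin i j l with h | h | h
    · subst h
      exact Or.inl (same α β i μ μ' hμ' h1 h2)
    · subst h
      exact Or.inr (Or.inl (same β γ j μ' μ'' hμ'' h2 h3))
    · subst h
      exact Or.inr (Or.inr (same α γ i μ μ'' hμ'' h1 h3))) (by
    intro hlt α β hα hβ
    obtain ⟨i, μ, hμ, h1⟩ := key α hα
    obtain ⟨j, μ', hμ', h2⟩ := key β hβ
    obtain ⟨l, μ'', h3⟩ := hz (fun j => algebraMap L (AlgebraicClosure L) (C j)) (by
      intro h0
      obtain ⟨-, -, h1⟩ := li_coef hli 0 0 1 (fun i => by
        rw [zero_mul, zero_mul, zero_add, zero_add, one_mul]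
        exact congrFun h0 i)
      exact one_ne_zero h1) hC'.cc (by
      have h4 : eval (fun j => ∑ a, P j a * C a) F = 0 := by
        rw [← htop]
        exact Polynomial.coeff_eq_zero_of_natDegree_lt (by rwa [mul_comm])
      have h5 := eval_up_map (L := AlgebraicClosure L) (fun j => ∑ a, P j a * C a) F
      rw [h4, map_zero] at h5
      rw [← h5]
      congr 2
      funext l
      rw [map_sum]
      refine Finset.sum_congr rfl fun a _ => ?_
      rw [map_mul])
    rcases hfin i j l with h | h | h
    · subst h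
      exact same α β i μ μ' hμ' h1 h2
    · subst h
      exact (inf_ne hli β (μ'' / μ') fun t => by
        rw [h2 t, h3 t]
        field_simp).elim
    · subst h
      exact (inf_ne hli α (μ'' / μ) fun t => by
        rw [h1 t, h3 t]
        field_simp).elim)
  refine ⟨α, β, i, j, hij, ?_⟩
  rw [h0] at hW
  exact hW

private lemma li_up {K : Type} [Field K] {n : ℕ} (P : Fin (n + 1) → Fin 3 → K)
    (s : Fin 3 → Fin (n + 1)) (hP : ∀ t u, P (s t) u = if t = u then 1 else 0)
    (a b c : Fin 3 → K) (hli : LinearIndependent K ![a, b, c]) :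
    LinearIndependent K ![fun j => ∑ t, P j t * a t, fun j => ∑ t, P j t * b t,
      fun j => ∑ t, P j t * c t] := by
  let T : (Fin 3 → K) →ₗ[K] (Fin (n + 1) → K) :=
    LinearMap.pi fun j => ∑ t, P j t • LinearMap.proj t
  have hT : ∀ z, T z = fun j => ∑ t, P j t * z t := by
    intro z
    funext j
    simp only [T, LinearMap.pi_apply, LinearMap.sum_apply, LinearMap.smul_apply,
      LinearMap.proj_apply, smul_eq_mul]
  have hker : LinearMap.ker T = ⊥ := by
    rw [LinearMap.ker_eq_bot']
    intro z hz
    funext t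
    have h1 := congrFun hz (s t)
    rw [hT] at h1
    simp only [hP, ite_mul, one_mul, zero_mul, Finset.sum_ite_eq, Finset.mem_univ, if_true] at h1
    exact h1
  have h2 := hli.map' T hker
  have h3 : T ∘ ![a, b, c] = ![T a, T b, T c] := by
    funext i
    fin_cases i <;> rfl
  rw [h3, hT, hT, hT] at h2
  exact h2

private lemma map_aeval_poly {k L σ : Type} [Field k] [Field L] [Algebra k L]
    (p : σ → Polynomial k) (F : MvPolynomial σ k) :
    (aeval p F).map (algebraMap k L) =
      aeval (fun i => (p i).map (algebraMap k L)) (MvPolynomial.map (algebraMap k L) F) := by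
  induction F using MvPolynomial.induction_on with
  | C a =>
    rw [aeval_C, map_C, aeval_C, ← Polynomial.C_eq_algebraMap, ← Polynomial.C_eq_algebraMap,
      Polynomial.map_C]
  | add p q hp hq => simp only [map_add, Polynomial.map_add, hp, hq]
  | mul_X p j hp => simp only [map_mul, Polynomial.map_mul, hp, aeval_X, map_X]

private lemma map_det_poly {k L : Type} [Field k] [Field L] [Algebra k L]
    (Y : Fin 3 → Fin 3 → Polynomial k) :
    (Matrix.of Y).det.map (algebraMap k L) =
      (Matrix.of fun i a => (Y i a).map (algebraMap k L)).det := by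
  have := RingHom.map_det (Polynomial.mapRingHom (algebraMap k L)) (Matrix.of Y)
  rw [Polynomial.coe_mapRingHom] at this
  rw [this]
  rfl

/-- KLV with a given algebraically closed field `k'` between `k` and the algebraic closure of `L` -/
private lemma klv_aux (hQD : T_QD) (hSO : Pool.Agent.H17.VG.T_SO) (hALG : T_ALG) (hKLL : T_KLL)
    (hKLC : T_KLC) (hBZ : T_BZ) (hKL3 : T_KL3) (hPAR : T_PAR) (hCSU : T_CSU) (hTW2 : T_TW2)
    (k L k' : Type) [Field k] [CharZero k] [Field L] [Field k'] [IsAlgClosed k'] [Algebra k L]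
    [Algebra k k'] [Algebra k' (AlgebraicClosure L)] [IsScalarTower k k' (AlgebraicClosure L)]
    (hk : ∀ z : L, IsAlgebraic k z → z ∈ Set.range (algebraMap k L))
    (hk' : ∀ z : k', IsAlgebraic k z) (n e : ℕ) (he : 1 ≤ e) (c : Mon (n + 1) (e + 2) → k)
    (hc : AlgebraicIndependent ℚ c) (x : Fin (n + 1) → L)
    (y : Fin 2 → Mon (n + 1) (e + 2) → L) (ν : Fin 2 → Fin (n + 1) → L)
    (hF2 : Fun2 (fun a => pderiv a (up L (frm c))) x y ν) (hν : ∀ b, ∑ i, ν b i * x i = 0)
    (hx : eval x (up L (frm c)) ≠ 0) (κ : L)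
    (hκ : ∀ (M M' : Mon (n + 1) (e + 1)) (a : Fin 3 → Fin (n + 1)), ∃ r : k,
      det3 x y (frm (Pi.single M 1 + Pi.single M' 1)) a = κ * algebraMap k L r)
    (hne : ∃ (Q : Mon (n + 1) (e + 1) → k) (a : Fin 3 → Fin (n + 1)),
      det3 x y (up L (frm Q)) a ≠ 0) :
    OnLine k x ∨ (∃ B C, LinearIndependent L ![x, B, C] ∧
      TwoRoots2 (e + 2) (up L (frm c)) x B C) ∨
    ∃ (s : Fin 3 → Fin (n + 1)) (P : Fin (n + 1) → Fin 3 → k) (q : Matrix (Fin 3) (Fin 3) k)
      (U V : Polynomial k) (Y : Fin 3 → Fin 3 → Polynomial k),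
      Con3 (up L (frm c)) x s (fun i a => algebraMap k L (P i a)) (q.map (algebraMap k L))
        (U.map (algebraMap k L)) (V.map (algebraMap k L))
        (fun i a => (Y i a).map (algebraMap k L)) := by
  have : CharZero L := charZero_of_injective_algebraMap (algebraMap k L).injective
  have : CharZero k' := charZero_of_injective_algebraMap (algebraMap k k').injective
  have : CharZero (AlgebraicClosure L) :=
    charZero_of_injective_algebraMap (algebraMap L (AlgebraicClosure L)).injective
  have : Infinite k' := IsAlgClosed.instInfinite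
  have hFF : up (AlgebraicClosure L) (up L (frm c)) =
      up (AlgebraicClosure L) (frm fun M => algebraMap k k' (c M)) := by
    rw [up_tower, ← up_frm', up_tower]
  have hc' : AlgebraicIndependent ℚ (fun M => algebraMap k k' (c M)) :=
    hc.map' (f := (algebraMap k k').toRatAlgHom) (algebraMap k k').injective
  have hsm := hSO k' n (e + 1) _ hc'
  have hF2' : Fun2 (fun a => pderiv a (up (AlgebraicClosure L)
      (frm fun M => algebraMap k k' (c M)))) (fun i => algebraMap L (AlgebraicClosure L) (x i))
      (fun b M => algebraMap L (AlgebraicClosure L) (y b M))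
      (fun b i => algebraMap L (AlgebraicClosure L) (ν b i)) := by
    have h1 := fun2_up (L := AlgebraicClosure L) _ x y ν hF2
    have h2 : (fun a => up (AlgebraicClosure L) (pderiv a (up L (frm c)))) =
        fun a => pderiv a (up (AlgebraicClosure L) (frm fun M => algebraMap k k' (c M))) := by
      funext a
      rw [← pd_up, hFF]
    rwa [h2] at h1
  have hν' : ∀ b, ∑ i, algebraMap L (AlgebraicClosure L) (ν b i) *
      algebraMap L (AlgebraicClosure L) (x i) = 0 := by
    intro b
    have := congrArg (algebraMap L (AlgebraicClosure L)) (hν b)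
    rw [map_sum, map_zero] at this
    rw [← this]
    exact Finset.sum_congr rfl fun i _ => (map_mul _ _ _).symm
  have hx' : eval (fun i => algebraMap L (AlgebraicClosure L) (x i))
      (up (AlgebraicClosure L) (frm fun M => algebraMap k k' (c M))) ≠ 0 := by
    rw [← hFF, eval_up_map]
    exact (map_ne_zero _).2 hx
  have hκ' := hQD k' (AlgebraicClosure L) n (e + 1)
      (fun i => algebraMap L (AlgebraicClosure L) (x i))
      (fun b M => algebraMap L (AlgebraicClosure L) (y b M))
      (algebraMap L (AlgebraicClosure L) κ) (by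
    intro M M' a
    obtain ⟨r, hr⟩ := hκ M M' a
    refine ⟨algebraMap k k' r, ?_⟩
    have h1 := det3_up (L := AlgebraicClosure L) x y (frm (Pi.single M 1 + Pi.single M' 1)) a
    rw [hr, up_frm', map_mul, ← IsScalarTower.algebraMap_apply,
      IsScalarTower.algebraMap_apply k k' (AlgebraicClosure L)] at h1
    rw [← h1]
    congr 2
    funext N
    rw [Pi.add_apply, Pi.add_apply, map_add]
    congr 1
    · by_cases h : N = M
      · subst h
        rw [Pi.single_eq_same, Pi.single_eq_same, map_one]
      · rw [Pi.single_eq_of_ne h, Pi.single_eq_of_ne h, map_zero]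
    · by_cases h : N = M'
      · subst h
        rw [Pi.single_eq_same, Pi.single_eq_same, map_one]
      · rw [Pi.single_eq_of_ne h, Pi.single_eq_of_ne h, map_zero])
  have hne' : ∃ (Q : Mon (n + 1) (e + 1) → k') (a : Fin 3 → Fin (n + 1)),
      det3 (fun i => algebraMap L (AlgebraicClosure L) (x i))
      (fun b M => algebraMap L (AlgebraicClosure L) (y b M))
      (up (AlgebraicClosure L) (frm Q)) a ≠ 0 := by
    obtain ⟨Q, a, hQ⟩ := hne
    refine ⟨fun M => algebraMap k k' (Q M), a, ?_⟩
    rw [← up_frm', up_tower, ← up_tower (L := L), det3_up]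
    exact (map_ne_zero _).2 hQ
  rcases hALG k' (AlgebraicClosure L) n e he _ (frm_homog _) hsm _ _ _ hF2' hν' hx' _ hκ' hne'
    with h | ⟨A, B, C, hli, l, s0, t0, hABC⟩
  · exact Or.inl (hKLL k L k' (AlgebraicClosure L) hk hk' (n + 1) x h)
  by_cases hL : OnLine k x
  · exact Or.inl hL
  refine Or.inr ?_
  obtain ⟨s, P, q, hP, hxP, hq, hqd, hqx, hA, hB, hC, hOn⟩ :=
    hKLC k L k' (AlgebraicClosure L) hk hk' n x hL A B C hli l s0 t0 hABC
  have hq' : (q.map (algebraMap k L)).IsSymm := hq.map _
  have hqd' : (q.map (algebraMap k L)).det ≠ 0 := by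
    have := RingHom.map_det (algebraMap k L) q
    rw [RingHom.mapMatrix_apply] at this
    rw [← this]
    exact (map_ne_zero _).2 hqd
  rcases hBZ k' n (e + 2) _ (frm_homog (fun M => algebraMap k k' (c M))) A B C
    with ⟨u, v, huv, hz⟩ | hz | ⟨u, v, huv, hz⟩
  · right
    obtain ⟨U, V, Y, hU, hUs, hU1, h1, h2, h3⟩ := hKL3 k k' hk' n (frm c) P q
      (fun j a => u j ^ 2 * A (s a) + u j * v j * B (s a) + v j ^ 2 * C (s a))
      (det_three _ _ _ hOn.ind u v huv)
      (fun j => onC_on _ (hq.map _) _ _ _ hOn (u j) (v j)) (by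
        intro j
        have h4 := hz j
        rw [← up_frm'] at h4
        rw [← h4]
        unfold up
        congr 2
        funext i
        rw [hA i, hB i, hC i, Finset.mul_sum, Finset.mul_sum, Finset.mul_sum,
          ← Finset.sum_add_distrib, ← Finset.sum_add_distrib]
        refine Finset.sum_congr rfl fun a _ => ?_
        ring)
    refine ⟨s, P, q, U, V, Y, ⟨hxP, hq', hqd', ?_, hU.map _, hUs.map, ?_, ?_, ?_, ?_⟩⟩
    · exact hqx
    · rwa [Polynomial.natDegree_map]
    · intro j
      have := Polynomial.map_dvd (algebraMap k L) (h1 j)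
      simpa only [Polynomial.map_sum, Polynomial.map_mul, Polynomial.map_C,
        Matrix.map_apply] using this
    · intro j
      have := Polynomial.map_dvd (algebraMap k L) (h2 j)
      rw [map_aeval_poly] at this
      unfold up
      simpa only [Polynomial.map_sum, Polynomial.map_mul, Polynomial.map_C] using this
    · have := Polynomial.map_dvd (algebraMap k L) h3
      rwa [Polynomial.map_sub, Polynomial.map_mul, Polynomial.map_one, map_det_poly] at this
  · exfalso
    apply hx'
    have h1 := whole (Ω := AlgebraicClosure L) _ A B C hz s0 t0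
    have h2 := eval_scale' (up_homog' (L := AlgebraicClosure L)
      (frm_homog (fun M => algebraMap k k' (c M)))) l (fun l => s0 ^ 2 *
        algebraMap k' (AlgebraicClosure L) (A l) + s0 * t0 * algebraMap k' (AlgebraicClosure L)
        (B l) + t0 ^ 2 * algebraMap k' (AlgebraicClosure L) (C l))
    rw [h1, mul_zero] at h2
    rw [← h2]
    congr 2
    funext i
    exact hABC i
  · left
    have hx0 : (fun a => x (s a)) ≠ 0 := by
      intro h0
      apply hL
      refine ⟨0, 0, 0, 0, fun i => ?_⟩
      rw [hxP i]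
      simp only [zero_mul, add_zero]
      refine Finset.sum_eq_zero fun a _ => ?_
      rw [show x (s a) = 0 from congrFun h0 a, mul_zero]
    obtain ⟨B2, C2, hOn2⟩ := hPAR L _ hq' hqd' (fun a => x (s a)) hx0 hqx
    have hxx : (fun j => ∑ a, algebraMap k L (P j a) * x (s a)) = x := by
      funext j
      exact (hxP j).symm
    have hOnΩ := onC_map (L := AlgebraicClosure L) _ _ _ _ hOn
    have hqq : (q.map (algebraMap k k')).map (algebraMap k' (AlgebraicClosure L)) =
        (q.map (algebraMap k L)).map (algebraMap L (AlgebraicClosure L)) := by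
      ext i j
      rw [Matrix.map_apply, Matrix.map_apply, Matrix.map_apply, Matrix.map_apply,
        ← IsScalarTower.algebraMap_apply, ← IsScalarTower.algebraMap_apply]
    have hPP : ∀ i a, algebraMap L (AlgebraicClosure L) (algebraMap k L (P i a)) =
        algebraMap k' (AlgebraicClosure L) (algebraMap k k' (P i a)) := by
      intro i a
      rw [← IsScalarTower.algebraMap_apply, ← IsScalarTower.algebraMap_apply]
    rw [hqq] at hOnΩ
    have hqΩ : ((q.map (algebraMap k L)).map (algebraMap L (AlgebraicClosure L))).IsSymm :=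
      hq'.map _
    have hqdΩ : ((q.map (algebraMap k L)).map (algebraMap L (AlgebraicClosure L))).det ≠ 0 := by
      have := RingHom.map_det (algebraMap L (AlgebraicClosure L)) (q.map (algebraMap k L))
      rw [RingHom.mapMatrix_apply] at this
      rw [← this]
      exact (map_ne_zero _).2 hqd'
    have hsum : ∀ (A : Fin (n + 1) → k'), (∀ j, A j = ∑ a, algebraMap k k' (P j a) * A (s a)) →
        ∀ l, ∑ a, algebraMap L (AlgebraicClosure L) (algebraMap k L (P l a)) *
          algebraMap k' (AlgebraicClosure L) (A (s a)) =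
          algebraMap k' (AlgebraicClosure L) (A l) := by
      intro A hA l
      rw [hA l, map_sum]
      refine Finset.sum_congr rfl fun a _ => ?_
      rw [map_mul, hPP]
    have key := two_roots hTW2 (up L (frm c)) (up_homog' (frm_homog c))
      (fun i a => algebraMap k L (P i a)) (q.map (algebraMap k L)) hq' (fun a => x (s a)) B2 C2
      hOn2 (by
        rw [hxx]
        exact hx) (fun i j => algebraMap k' (AlgebraicClosure L) (u i) ^ 2 *
          algebraMap k' (AlgebraicClosure L) (A (s j)) +
          algebraMap k' (AlgebraicClosure L) (u i) * algebraMap k' (AlgebraicClosure L) (v i) *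
          algebraMap k' (AlgebraicClosure L) (B (s j)) +
          algebraMap k' (AlgebraicClosure L) (v i) ^ 2 *
          algebraMap k' (AlgebraicClosure L) (C (s j))) (by
        intro y hy hyq hyF
        rw [hFF] at hyF
        exact zeros hCSU _ (up_homog' (frm_homog (fun M => algebraMap k k' (c M)))) _ _ hqΩ hqdΩ
          _ _ _ hOnΩ (fun i => algebraMap k' (AlgebraicClosure L) (u i))
          (fun i => algebraMap k' (AlgebraicClosure L) (v i)) (by
            intro i
            rcases huv i with h | h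
            · exact Or.inl ((map_ne_zero _).2 h)
            · exact Or.inr ((map_ne_zero _).2 h)) (by
            intro s1 t1 h1
            refine hz (AlgebraicClosure L) s1 t1 ?_
            rw [← h1]
            unfold up
            congr 2
            funext l
            rw [hsum A hA, hsum B hB, hsum C hC]) y hy hyq hyF)
    rw [hxx] at key
    refine ⟨_, _, ?_, key⟩
    have hli2 := li_up (fun i a => algebraMap k L (P i a)) s (by
      intro t u
      simp only [hP]
      split_ifs
      · exact map_one _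
      · exact map_zero _) _ _ _ hOn2.ind
    rwa [hxx] at hli2

/-- KLV -/
theorem pf_KLV (hQD : T_QD) (hSO : Pool.Agent.H17.VG.T_SO) (hALG : T_ALG) (hKLL : T_KLL)
    (hKLC : T_KLC) (hBZ : T_BZ) (hKL3 : T_KL3) (hPAR : T_PAR) (hCSU : T_CSU) (hTW2 : T_TW2) :
    T_KLV := by
  intro k L _ _ _ _ hk n e he c hc x y ν hF2 hν hx κ hκ hne
  have : IsAlgClosed (algebraicClosure k (AlgebraicClosure L)) :=
    (algebraicClosure.isAlgClosure k (AlgebraicClosure L)).isAlgClosed
  exact klv_aux hQD hSO hALG hKLL hKLC hBZ hKL3 hPAR hCSU hTW2 k L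
    (algebraicClosure k (AlgebraicClosure L)) hk
    (fun z => (algebraicClosure.isAlgebraic k (AlgebraicClosure L)).isAlgebraic z)
    n e he c hc x y ν hF2 hν hx κ hκ hne

end Pool.Agent.H11.BO
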