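import Pool.Agent.H82.BO.Targets
import Pool.Agent.H13.FLC.LFC

/-!
Row LFG of bopt_modules: few `y` are bad for a chain (adapted from `Pool/Agent/H13/FLC/LFC.lean` of
helper13: the set of the clauses is `R y` for an arbitrary `R`).
-/

set_option autoImplicit false

namespace Pool.Agent.H11.BO

open Finset Pool.Agent.H82.BO
open Pool.Agent.H15.FLC (Half Violates InsC CovC KerC ErrC BRC ERC KRC BadC)
open Pool.Agent.H13.FLC (natCard_filter BADY step cnt_le)

open Classical in
/-- the claim -/
theorem claim {n k m : ℕ} (H : Fin m → Half n k) (R : (Fin n → Bool) → Set (Fin m))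
    (w s₀ q N : ℕ)
    (hH : ∀ p : Finset (Fin n) × (Fin n → Bool), p.1.card < w →
      Nat.card {c // InsC H p c} ≤ s₀)
    (hN : ∀ T : Finset (Fin m), T.card = q + 1 →
      Nat.card {y : Fin n → Bool // ∀ c ∈ T, c ∈ R y} ≤ N)
    (𝒦 : Set (Set (Finset (Fin n) × (Fin n → Bool)))) (hch : IsChain (· ⊆ ·) 𝒦)
    (hw : ∀ K ∈ 𝒦, ∀ p ∈ K, p.1.card < w) :
    ∀ (l : ℕ) (T : Finset (Fin m)), T.card + l = q →
      Nat.card {y : Fin n → Bool // BADY H 𝒦 T l (R y)} ≤ s₀ ^ (l + 1) * N := by
  have hemp : ∀ (T : Finset (Fin m)) (l b : ℕ), (∀ R' : Set (Fin m), ¬ BADY H 𝒦 T l R') →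
      Nat.card {y : Fin n → Bool // BADY H 𝒦 T l (R y)} ≤ b := by
    intro T l b h
    have : IsEmpty {y : Fin n → Bool // BADY H 𝒦 T l (R y)} := ⟨fun F => h _ F.2⟩
    rw [Nat.card_of_isEmpty]
    exact Nat.zero_le _
  intro l
  induction l with
  | zero =>
    intro T hT
    rcases step H 𝒦 hch w hw T with h | ⟨p, hp, hpT, hhit⟩
    · exact hemp T 0 _ (fun R' => h 0 R')
    · have hC : (univ.filter fun c : Fin m => InsC H p c).card ≤ s₀ := by
        rw [← natCard_filter]
        exact hH p hp
      rw [zero_add, pow_one]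
      refine cnt_le (fun y => BADY H 𝒦 T 0 (R y))
        (univ.filter fun c : Fin m => InsC H p c)
        (fun c y => c ∉ T ∧ ∀ c' ∈ insert c T, c' ∈ R y) _ s₀ hC ?_ ?_
      · intro y hF
        obtain ⟨c, hcR, hc⟩ := hhit 0 _ hF
        refine ⟨c, by rw [mem_filter]; exact ⟨mem_univ _, hc⟩, fun h => hpT _ h hc, ?_⟩
        intro c' hc'
        rcases mem_insert.1 hc' with h1 | h1
        · rw [h1]
          exact hcR
        · exact hF.1 c' h1
      · intro c _
        by_cases hcT : c ∈ T
        · have : IsEmpty {y : Fin n → Bool // c ∉ T ∧ ∀ c' ∈ insert c T, c' ∈ R y} :=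
            ⟨fun F => F.2.1 hcT⟩
          rw [Nat.card_of_isEmpty]
          exact Nat.zero_le _
        · have hcard : (insert c T).card = q + 1 := by
            rw [card_insert_of_notMem hcT]
            omega
          refine le_trans (Nat.card_mono (Set.toFinite _) ?_) (hN (insert c T) hcard)
          intro y hy
          exact hy.2
  | succ l ih =>
    intro T hT
    rcases step H 𝒦 hch w hw T with h | ⟨p, hp, hpT, hhit⟩
    · exact hemp T (l + 1) _ (fun R' => h (l + 1) R')
    · have hC : (univ.filter fun c : Fin m => InsC H p c).card ≤ s₀ := by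
        rw [← natCard_filter]
        exact hH p hp
      have hpow : s₀ ^ (l + 1 + 1) * N = s₀ * (s₀ ^ (l + 1) * N) := by
        rw [pow_succ s₀ (l + 1)]
        ring
      rw [hpow]
      refine cnt_le (fun y => BADY H 𝒦 T (l + 1) (R y))
        (univ.filter fun c : Fin m => InsC H p c)
        (fun c y => c ∉ T ∧ BADY H 𝒦 (insert c T) l (R y)) _ s₀ hC ?_ ?_
      · intro y hF
        obtain ⟨c, hcR, hc⟩ := hhit (l + 1) _ hF
        have hnT : c ∉ T := fun h => hpT _ h hc
        refine ⟨c, by rw [mem_filter]; exact ⟨mem_univ _, hc⟩, hnT, ?_, ?_⟩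
        · intro c' hc'
          rcases mem_insert.1 hc' with h1 | h1
          · rw [h1]
            exact hcR
          · exact hF.1 c' h1
        · obtain ⟨-, K, hK, hKh, hKb⟩ := hF
          refine ⟨K, hK, hKh, ?_⟩
          intro T2 hT2 hR2 hc2
          refine hKb T2 (subset_trans (subset_insert _ _) hT2) hR2 ?_
          rw [card_insert_of_notMem hnT] at hc2
          omega
      · intro c _
        by_cases hcT : c ∈ T
        · have : IsEmpty {y : Fin n → Bool // c ∉ T ∧ BADY H 𝒦 (insert c T) l (R y)} :=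
            ⟨fun F => F.2.1 hcT⟩
          rw [Nat.card_of_isEmpty]
          exact Nat.zero_le _
        · have h1 := ih (insert c T) (by
            rw [card_insert_of_notMem hcT]
            omega)
          refine le_trans (Nat.card_mono (Set.toFinite _) ?_) h1
          intro y hy
          exact hy.2

/-- LFG -/
theorem pf_LFG : T_LFG := by
  intro n k m H R w s₀ q N hH hN 𝒦 hch hw
  have h := claim H R w s₀ q N hH hN 𝒦 hch hw q ∅ (by rw [card_empty, zero_add])
  refine le_trans (Nat.card_mono (Set.toFinite _) ?_) h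
  intro y hy
  obtain ⟨K, hK, hKh, hKb⟩ := hy
  refine ⟨fun c hc => absurd hc (notMem_empty c), K, hK, hKh, ?_⟩
  intro T2 _ hR2 hc2
  refine hKb T2 hR2 ?_
  rw [card_empty, zero_add] at hc2
  exact hc2

end Pool.Agent.H11.BO
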