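import Pool.Agent.H17.BO.TargetsD

/-!
# TW2: a polynomial with at most two different zeros, infinity included
-/

set_option autoImplicit false

namespace Pool.Agent.H11.BO

open MvPolynomial SC Pool.Agent.H27.LV Pool.Agent.H17.VG Pool.Agent.H17.BO

private lemma prod_form {E : Type} [Field E] [IsAlgClosed E] (P : Polynomial E)
    (h0 : P.coeff 0 ≠ 0) :
    P = Polynomial.C (P.coeff 0) *
      (P.roots.map (fun r => (1 + Polynomial.C (-r⁻¹) * Polynomial.X : Polynomial E))).prod := by
  have hP : P ≠ 0 := by
    rintro rfl
    exact h0 (by simp)
  have hs := (IsAlgClosed.splits P).eq_prod_roots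
  have hr : ∀ r ∈ P.roots, r ≠ 0 := by
    rintro r hr rfl
    rw [Polynomial.mem_roots hP, Polynomial.IsRoot.def, ← Polynomial.coeff_zero_eq_eval_zero] at hr
    exact h0 hr
  have h1 : (P.roots.map (fun a => (Polynomial.X - Polynomial.C a : Polynomial E))).prod =
      (P.roots.map (fun a => (Polynomial.C (-a) : Polynomial E))).prod *
      (P.roots.map (fun r => (1 + Polynomial.C (-r⁻¹) * Polynomial.X : Polynomial E))).prod := by
    rw [← Multiset.prod_map_mul]
    refine congrArg Multiset.prod (Multiset.map_congr rfl ?_)
    intro r hr'
    have := hr r hr'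
    have h2 : (Polynomial.C (-r) : Polynomial E) * Polynomial.C (-r⁻¹) = 1 := by
      rw [← Polynomial.C_mul, neg_mul_neg, mul_inv_cancel₀ this, Polynomial.C_1]
    rw [mul_add, ← mul_assoc, h2, Polynomial.C_neg]
    ring
  have h2 : (P.roots.map (fun a => (Polynomial.C (-a) : Polynomial E))).prod =
      Polynomial.C ((P.roots.map (fun a => -a)).prod) := by
    rw [map_multiset_prod, Multiset.map_map]
    rfl
  have h3 : P = Polynomial.C (P.leadingCoeff * (P.roots.map (fun a => -a)).prod) *
      (P.roots.map (fun r => (1 + Polynomial.C (-r⁻¹) * Polynomial.X : Polynomial E))).prod := by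
    rw [Polynomial.C_mul, mul_assoc, ← h2, ← h1]
    exact hs
  have h4 : P.coeff 0 = P.leadingCoeff * (P.roots.map (fun a => -a)).prod := by
    have h5 := congrArg (Polynomial.eval 0) h3
    rw [Polynomial.eval_mul, Polynomial.eval_C, Polynomial.eval_multiset_prod,
      Multiset.map_map] at h5
    have h6 : (P.roots.map ((Polynomial.eval 0) ∘
        (fun r => (1 + Polynomial.C (-r⁻¹) * Polynomial.X : Polynomial E)))).prod = 1 := by
      apply Multiset.prod_eq_one
      intro x hx
      rw [Multiset.mem_map] at hx
      obtain ⟨r, -, rfl⟩ := hx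
      simp
    rw [h6, mul_one] at h5
    rw [Polynomial.coeff_zero_eq_eval_zero]
    exact h5
  rw [h4]
  exact h3

/-- TW2 -/
theorem pf_TW2 : T_TW2 := by
  intro K _ _ N W hN h0 h3 h2
  have hc0 : (W.map (algebraMap K (AlgebraicClosure K))).coeff 0 =
      algebraMap K (AlgebraicClosure K) (W.coeff 0) := Polynomial.coeff_map _ _
  have hne : (W.map (algebraMap K (AlgebraicClosure K))).coeff 0 ≠ 0 := by
    rw [hc0]
    exact (map_ne_zero _).2 h0
  have hdeg : (W.map (algebraMap K (AlgebraicClosure K))).natDegree = W.natDegree :=
    Polynomial.natDegree_map _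
  have key := prod_form _ hne
  rw [← hc0]
  generalize hP : W.map (algebraMap K (AlgebraicClosure K)) = P at *
  have hPne : P ≠ 0 := by
    rintro rfl
    exact hne (by simp)
  have hcard : Multiset.card P.roots = P.natDegree :=
    (IsAlgClosed.splits P).natDegree_eq_card_roots.symm
  have hev : ∀ r ∈ P.roots, P.eval r = 0 := fun r hr => by
    rw [Polynomial.mem_roots hPne] at hr
    exact hr
  have one : ∀ j : ℕ, ((1 : Polynomial (AlgebraicClosure K)) +
      Polynomial.C 0 * Polynomial.X) ^ j = 1 := by
    intro j
    simp
  rcases Multiset.empty_or_exists_mem P.roots with he | ⟨r, hr⟩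
  · refine ⟨0, 0, N, 0, by simp, ?_⟩
    rw [one, pow_zero, mul_one, mul_one]
    rw [he] at key
    simpa using key
  · by_cases hall : ∀ r' ∈ P.roots, r' = r
    · have hrep : P.roots = Multiset.replicate P.natDegree r := by
        rw [Multiset.eq_replicate]
        exact ⟨hcard, hall⟩
      refine ⟨-r⁻¹, 0, P.natDegree, N - P.natDegree, by omega, ?_⟩
      rw [one, mul_one]
      rw [hrep, Multiset.map_replicate, Multiset.prod_replicate] at key
      exact key
    · push Not at hall
      obtain ⟨r', hr', hrr⟩ := hall
      have hD : P.natDegree = N := by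
        by_contra hne'
        have hlt : W.natDegree < N := by omega
        exact hrr (h2 hlt r' r (hev _ hr') (hev _ hr))
      have hall : ∀ z ∈ P.roots, z = r ∨ z = r' := by
        intro z hz
        rcases h3 z r r' (hev _ hz) (hev _ hr) (hev _ hr') with h | h | h
        · exact Or.inl h
        · exact absurd h.symm hrr
        · exact Or.inr h
      classical
      have hsum : P.roots = Multiset.replicate (P.roots.count r) r +
          Multiset.replicate (P.roots.count r') r' := by
        ext z
        rw [Multiset.count_add, Multiset.count_replicate, Multiset.count_replicate]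
        by_cases hz : z ∈ P.roots
        · rcases hall z hz with rfl | rfl
          · rw [if_pos rfl, if_neg hrr, add_zero]
          · rw [if_neg (Ne.symm hrr), if_pos rfl, zero_add]
        · rw [Multiset.count_eq_zero_of_notMem hz, if_neg, if_neg]
          · rintro rfl
            exact hz hr'
          · rintro rfl
            exact hz hr
      refine ⟨-r⁻¹, -r'⁻¹, P.roots.count r, P.roots.count r', ?_, ?_⟩
      · have := congrArg Multiset.card hsum
        rw [hcard, hD, Multiset.card_add, Multiset.card_replicate, Multiset.card_replicate] at this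
        exact this.symm
      · have h7 : (P.roots.map (fun r => (1 + Polynomial.C (-r⁻¹) * Polynomial.X :
            Polynomial (AlgebraicClosure K)))).prod =
            (1 + Polynomial.C (-r⁻¹) * Polynomial.X) ^ (P.roots.count r) *
            (1 + Polynomial.C (-r'⁻¹) * Polynomial.X) ^ (P.roots.count r') := by
          conv_lhs => rw [hsum]
          rw [Multiset.map_add, Multiset.prod_add, Multiset.map_replicate,
            Multiset.map_replicate, Multiset.prod_replicate, Multiset.prod_replicate]
        rw [h7, ← mul_assoc] at key
        exact key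

end Pool.Agent.H11.BO
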